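import Pool.Agent.GT.StmtsB

/-! Squad GT, row B_POL. -/

namespace Pool.Agent.GT.H92

open Finset

theorem b_pol : PolStmt := by
  intro η hη
  obtain ⟨p, hp⟩ := exists_polynomial_near_of_continuousOn (-1) 1 (fun x : ℝ => max x 0)
    (by fun_prop) η hη
  refine ⟨p.natDegree + 1, fun m => p.coeff m, ?_⟩
  intro x hx
  have h := hp x (Set.mem_Icc.2 (abs_le.1 hx))
  rw [Polynomial.eval_eq_sum_range, abs_sub_comm] at h
  exact h.le

end Pool.Agent.GT.H92
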