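import Pool.Agent.GT.StmtsD

/-! Squad GT, row D_RCP. -/

namespace Pool.Agent.GT.D.H92

open NumberTheorySymbols

theorem ul_eq (hV : ValStmt) {p : ℕ} (hp : p.Prime) (h2 : p ≠ 2) {n : ℤ} (hn : ¬ (p : ℤ) ∣ n) :
    ul p n = if jacobiSym n p = 1 then 0 else 1 := by
  have := Fact.mk hp
  obtain ⟨h0, h1⟩ := hV.2.2.1 p n hp h2 hn
  have hn0 : ((n : ℤ) : ZMod p) ≠ 0 := by
    intro h
    exact hn ((ZMod.intCast_zmod_eq_zero_iff_dvd n p).1 h)
  rw [← jacobiSym.legendreSym.to_jacobiSym]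
  split_ifs with h
  · exact h0 ((legendreSym.eq_one_iff p hn0).1 h)
  · exact h1 (fun hs => h ((legendreSym.eq_one_iff p hn0).2 hs))

theorem jac_two {p : ℕ} (h8 : p % 8 = 1) : jacobiSym 2 p = 1 := by
  have ho : Odd p := Nat.odd_iff.2 (by omega)
  rw [jacobiSym.at_two ho, ZMod.χ₈_nat_eq_if_mod_eight, if_neg (by omega), if_pos (Or.inl h8)]

theorem jac_neg {p : ℕ} (h8 : p % 8 = 1) : jacobiSym (-1) p = 1 := by
  have ho : Odd p := Nat.odd_iff.2 (by omega)
  rw [jacobiSym.at_neg_one ho, ZMod.χ₄_nat_one_mod_four (by omega)]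

theorem d_rcp (_ : AddStmt) (hV : ValStmt) : RcpStmt := by
  refine ⟨?_, ?_, ?_⟩
  · intro p hp h8
    have h2 : p ≠ 2 := by omega
    constructor
    · rw [ul_eq hV hp h2, if_pos (jac_neg h8)]
      rw [dvd_neg]
      intro h
      have h' : p ∣ 1 := by exact_mod_cast h
      have := Nat.le_of_dvd one_pos h'
      have := hp.two_le
      omega
    · rw [ul_eq hV hp h2, if_pos (jac_two h8)]
      intro h
      have h' : p ∣ 2 := by exact_mod_cast h
      have := Nat.le_of_dvd (by norm_num) h'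
      have := hp.two_le
      omega
  · intro p q hp hq h8 hq2 hpq
    have h2 : p ≠ 2 := by omega
    have n1 : ¬ (p : ℤ) ∣ (q : ℤ) := by
      intro h
      exact hpq ((Nat.prime_dvd_prime_iff_eq hp hq).1 (by exact_mod_cast h))
    have n2 : ¬ (q : ℤ) ∣ (p : ℤ) := by
      intro h
      exact hpq.symm ((Nat.prime_dvd_prime_iff_eq hq hp).1 (by exact_mod_cast h))
    rw [ul_eq hV hp h2 n1, ul_eq hV hq hq2 n2,
      jacobiSym.quadratic_reciprocity_one_mod_four' (hq.odd_of_ne_two hq2) (by omega)]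
  · intro p p' d hp hp' h8 h8' hd hc hc' hm
    have h2 : p ≠ 2 := by omega
    have h2' : p' ≠ 2 := by omega
    have n1 : ¬ (p : ℤ) ∣ (d : ℤ) := by
      intro h
      exact (hp.coprime_iff_not_dvd.1 hc) (by exact_mod_cast h)
    have n2 : ¬ (p' : ℤ) ∣ (d : ℤ) := by
      intro h
      exact (hp'.coprime_iff_not_dvd.1 hc') (by exact_mod_cast h)
    rw [ul_eq hV hp h2 n1, ul_eq hV hp' h2' n2]
    have key : jacobiSym (d : ℤ) p = jacobiSym (d : ℤ) p' := by
      obtain ⟨k, m, hm2, rfl⟩ := Nat.exists_eq_two_pow_mul_odd hd.ne'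
      push_cast
      rw [jacobiSym.mul_left, jacobiSym.mul_left, jacobiSym.pow_left, jacobiSym.pow_left,
        jac_two h8, jac_two h8', one_pow, one_mul, one_mul,
        jacobiSym.quadratic_reciprocity_one_mod_four' hm2 (by omega),
        jacobiSym.quadratic_reciprocity_one_mod_four' hm2 (by omega : p' % 4 = 1)]
      apply jacobiSym.mod_left'
      have hmm : p ≡ p' [MOD m] := hm.of_mul_left _
      exact_mod_cast hmm
    rw [key]

end Pool.Agent.GT.D.H92
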